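import Pool.Agent.Lib.MP_1a91b9_ntK.C.PerJ

/-!
# MP_1a91b9_nt (cubic twists): the formula modulo `√-3` from the residue class of the value of `L`

For every cube-free `D`: `g₁ √3 / Ω = x T / 9` with `T` the product of the Tamagawa numbers and a rational
number `x` whose denominator is prime to `3`; its numerator is prime to `3` if and only if the residue class
of the normalised value of `L` is not zero.
-/

set_option autoImplicit false

namespace Pool.Agent.Lib.MP_1a91b9_ntS3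

open NumberField IsDedekindDomain WeierstrassCurve WithZero
open Pool.Agent.Lib.MP_1a91b9_ntT Pool.Agent.Lib.MP_1a91b9_ntT.Per
open Pool.Agent.Lib.MP_1a91b9_ntH (wO s3 Nz Nz_eq s3_ne s3_not_isUnit)
open Pool.Agent.Lib.MP_1a91b9_ntH.C (sqrt_discr_K)
open Pool.Agent.Lib.MP_1a91b9_ntT.S9 (tam normFactor period)
open Pool.Agent.Lib.MP_1a91b9_ntK Pool.Agent.Lib.MP_1a91b9_ntK.C
open scoped Classical

section val
variable {A : ValuationSubring ℂ}

private theorem per_conj_le {x : ℂ} (h : (A.comap (starRingEnd ℂ)).valuation x ≤ 1) :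
    A.valuation ((starRingEnd ℂ) x) ≤ 1 := by
  rw [ValuationSubring.valuation_le_one_iff, ValuationSubring.mem_comap] at h
  rwa [ValuationSubring.valuation_le_one_iff]

/-- The square of the absolute value, a unit. -/
theorem normsq3_unit (hA : Three A) {y : ℂ}
    (h : ∀ A : ValuationSubring ℂ, Three A → A.valuation y = 1) :
    A.valuation ((‖y‖ ^ 2 : ℝ) : ℂ) = 1 :=
  per3_normsq (h A hA) (h _ (per3_comap hA))

/-- The square of the absolute value, not a unit. -/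
theorem normsq3_lt (hA : Three A) {y : ℂ}
    (h : ∀ A : ValuationSubring ℂ, Three A → A.valuation y < 1) :
    A.valuation ((‖y‖ ^ 2 : ℝ) : ℂ) < 1 := by
  rw [Complex.ofReal_pow, ← Complex.conj_mul', map_mul, mul_comm]
  exact mul_lt_one_of_lt_of_le (h A hA) (per_conj_le (h _ (per3_comap hA)).le)

theorem val3_int_lt (hA : Three A) {n : ℤ} (h : (3 : ℤ) ∣ n) : A.valuation (n : ℂ) < 1 := by
  obtain ⟨m, rfl⟩ := h
  have h1 : A.valuation ((m : ℤ) : ℂ) ≤ 1 := by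
    rw [A.valuation_le_one_iff]
    exact intCast_mem A m
  push_cast
  rw [map_mul]
  exact mul_lt_one_of_lt_of_le (v_three_lt hA) h1

theorem val3_int (hA : Three A) {n : ℤ} (h : ¬ (3 : ℤ) ∣ n) : A.valuation (n : ℂ) = 1 := by
  have h1 : ¬ 3 ∣ n.natAbs := fun h2 => h (by
    have h3 := Int.natAbs_dvd_natAbs (a := 3) (b := n)
    exact h3.1 (by simpa using h2))
  have h2 := per3_nat hA h1
  rcases Int.natAbs_eq n with h3 | h3
  · rw [h3, Int.cast_natCast]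
    exact h2
  · rw [h3, Int.cast_neg, Int.cast_natCast, Valuation.map_neg]
    exact h2

end val

/-- A rational number which is a unit above `3`, or is in the maximal ideals. -/
theorem rat_par3 {x : ℝ} {q : ℚ} (hx : x = (q : ℝ)) {b : Prop}
    (h1 : b → ∀ A : ValuationSubring ℂ, Three A → A.valuation (x : ℂ) = 1)
    (h0 : ¬ b → ∀ A : ValuationSubring ℂ, Three A → A.valuation (x : ℂ) < 1) :
    ¬ 3 ∣ q.den ∧ (¬ (3 : ℤ) ∣ q.num ↔ b) := by
  obtain ⟨A, hA⟩ := exists_Three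
  have hle : A.valuation (x : ℂ) ≤ 1 := by
    by_cases hb : b
    · exact (h1 hb A hA).le
    · exact (h0 hb A hA).le
  have hxq : (x : ℂ) = (q.num : ℂ) / (q.den : ℂ) := by
    rw [hx, Complex.ofReal_ratCast]
    exact Rat.cast_def q
  have hd : ¬ 3 ∣ q.den := by
    intro h
    have hn : ¬ (3 : ℤ) ∣ q.num := by
      intro he
      have h4 : 3 ∣ q.num.natAbs := by
        have h5 := Int.natAbs_dvd_natAbs.2 he
        simpa using h5
      have h3 := Nat.dvd_gcd h4 h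
      rw [Nat.Coprime.gcd_eq_one q.reduced] at h3
      omega
    have h3 : A.valuation ((q.den : ℕ) : ℂ) < 1 := by
      have := val3_int_lt hA (n := (q.den : ℤ)) (by exact_mod_cast h)
      simpa using this
    have h4 : A.valuation ((q.num : ℤ) : ℂ) = 1 := val3_int hA hn
    have h5 : (x : ℂ) * (q.den : ℂ) = (q.num : ℂ) := by
      rw [hxq, div_mul_cancel₀]
      exact_mod_cast q.den_nz
    have h6 := congrArg A.valuation h5
    rw [map_mul, h4, mul_comm] at h6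
    have h7 := mul_lt_one_of_lt_of_le h3 hle
    rw [h6] at h7
    exact lt_irrefl _ h7
  have hdu : A.valuation ((q.den : ℕ) : ℂ) = 1 := per3_nat hA hd
  have hv : A.valuation (x : ℂ) = A.valuation ((q.num : ℤ) : ℂ) := by
    rw [hxq, map_div₀, hdu, div_one]
  refine ⟨hd, fun hn => ?_, fun hb hn => ?_⟩
  · by_contra hb
    have h2 := h0 hb A hA
    rw [hv, val3_int hA hn] at h2
    exact lt_irrefl _ h2
  · have h2 := h1 hb A hA
    rw [hv] at h2
    have h3 := val3_int_lt hA hn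
    rw [h2] at h3
    exact lt_irrefl _ h3

/-- **The formula modulo `√-3`**, all cube-free `D`. -/
theorem formula_mod {D : 𝓞 K} (hD0 : D ≠ 0) (hD : ∀ p : 𝓞 K, Prime p → ¬ p ^ 3 ∣ D)
    {r : ℕ} {L g1 : ℂ} (hg : g1 = L * (starRingEnd ℂ) L) {b : Prop}
    (h1 : b → ∀ A : ValuationSubring ℂ, Three A →
      A.valuation ((L * 3 / (Om * sq3 ^ r)) ^ 3 * em D) = 1)
    (h0 : ¬ b → ∀ A : ValuationSubring ℂ, Three A →
      A.valuation ((L * 3 / (Om * sq3 ^ r)) ^ 3 * em D) < 1)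
    {t T : ℕ} (ht : ¬ 3 ∣ t) (hT : T = 3 ^ r * t)
    (hrat : ∃ q : ℚ, ‖L‖ ^ 2 * ‖em D‖ ^ (2 / 3 : ℝ) = (q : ℝ) * ‖Om‖ ^ 2) :
    ∃ q : ℚ, ¬ 3 ∣ q.den ∧ (¬ (3 : ℤ) ∣ q.num ↔ b) ∧
      g1 * (√|(discr K : ℝ)| : ℝ) / (period (wd (D : K)) : ℝ) =
        ((q : ℝ) * ((T : ℝ) / 9) : ℝ) := by
  have hDe : em D ≠ 0 := by
    rw [MP_1a91b9_ntH.em, Ne, map_eq_zero]
    exact fun h => hD0 (RingOfIntegers.ext h)
  have hn0 : 0 < ‖em D‖ := norm_pos_iff.2 hDe
  have hOm : 0 < ‖Om‖ := norm_pos_iff.2 Om_ne_zero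
  obtain ⟨d, hd⟩ : ∃ d : ℝ, d = ‖em D‖ ^ (2 / 3 : ℝ) := ⟨_, rfl⟩
  have hd0 : 0 < d := by rw [hd]; exact Real.rpow_pos_of_pos hn0 _
  have hd3 : d ^ 3 = ‖em D‖ ^ 2 := by
    rw [hd, ← Real.rpow_natCast, ← Real.rpow_mul hn0.le]
    norm_num
  obtain ⟨ν, hνd⟩ : ∃ ν, ν = L * 3 / (Om * sq3 ^ r) := ⟨_, rfl⟩
  have hsr : sq3 ^ r ≠ 0 := pow_ne_zero _ sq3_ne
  rw [← hνd] at h1 h0
  have hs3 : ‖sq3‖ ^ 2 = 3 := by
    rw [← norm_pow, sq3_sq]
    norm_num
  have hLn : ‖L‖ ^ 2 = ‖ν‖ ^ 2 * ‖Om‖ ^ 2 * 3 ^ r / 9 := by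
    have h1 : L = ν * (Om * sq3 ^ r) / 3 := by
      rw [hνd]
      have := Om_ne_zero
      field_simp
    have h2 : (‖sq3‖ ^ r) ^ 2 = 3 ^ r := by
      rw [← pow_mul, mul_comm r 2, pow_mul, hs3]
    rw [h1, norm_div, norm_mul, norm_mul, norm_pow, div_pow, mul_pow, mul_pow, h2]
    norm_num
    ring
  have ht0 : (t : ℝ) ≠ 0 := by
    intro h
    have : t = 0 := by exact_mod_cast h
    rw [this] at ht
    exact ht (dvd_zero _)
  have h3r : (3 : ℝ) ^ r ≠ 0 := by positivity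
  -- rationality
  obtain ⟨q, hq⟩ := hrat
  rw [← hd, hLn] at hq
  have hx : ‖ν‖ ^ 2 * d / t = ((q * 9 / (3 ^ r * t) : ℚ) : ℝ) := by
    have h2 : ‖ν‖ ^ 2 * d = q * 9 / 3 ^ r := by
      have h3 : ‖Om‖ ^ 2 ≠ 0 := by positivity
      field_simp
      have h4 : (‖ν‖ ^ 2 * d * 3 ^ r - q * 9) * ‖Om‖ ^ 2 = 0 := by
        linear_combination 9 * hq
      have h5 := (mul_eq_zero.1 h4).resolve_right h3
      linear_combination h5
    rw [h2]
    push_cast
    field_simp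
  -- the valuation
  have hval : ∀ A : ValuationSubring ℂ, Three A →
      A.valuation ((‖ν‖ ^ 2 * d / t : ℝ) : ℂ) ^ 3 =
        A.valuation ((‖ν ^ 3 * em D‖ ^ 2 : ℝ) : ℂ) := by
    intro A hA
    have h4 : ((‖ν‖ ^ 2 * d : ℝ) : ℂ) ^ 3 = ((‖ν ^ 3 * em D‖ ^ 2 : ℝ) : ℂ) := by
      rw [← Complex.ofReal_pow, mul_pow, hd3, norm_mul, norm_pow]
      congr 1
      ring
    have e4 : (((‖ν‖ ^ 2 * d / t : ℝ)) : ℂ) = ((‖ν‖ ^ 2 * d : ℝ) : ℂ) / (t : ℂ) := by
      push_cast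
      ring
    rw [e4, map_div₀, per3_nat hA ht, div_one, ← map_pow, h4]
  have h3 := rat_par3 hx (b := b) (fun hb A hA => by
      have h2 := hval A hA
      rw [normsq3_unit hA (h1 hb)] at h2
      exact (pow_eq_one_iff_of_nonneg zero_le (by norm_num)).1 h2)
    (fun hb A hA => by
      have h2 := hval A hA
      have h4 := normsq3_lt hA (h0 hb)
      rw [← h2] at h4
      by_contra hc
      rw [not_lt] at hc
      exact absurd h4 (not_lt.2 (one_le_pow₀ hc)))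
  refine ⟨q * 9 / (3 ^ r * t), h3.1, h3.2, ?_⟩
  rw [← hx, per3_g hg, sqrt_discr_K, period_wdj hD0 hD, ← hd, ← Complex.ofReal_mul,
    ← Complex.ofReal_div, hLn, hT]
  congr 1
  have h3 : (√3 : ℝ) ≠ 0 := by positivity
  push_cast
  field_simp

end Pool.Agent.Lib.MP_1a91b9_ntS3
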