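import Pool.Agent.Lib.MP_1a91b9_ntK.C.Q2H
import Pool.Agent.Lib.MP_1a91b9_ntS3.L.Per

/-!
# MP_1a91b9_nt (cubic twists): the formula modulo `√-3` for every cube-free `D` which is not a cube
-/

set_option autoImplicit false

namespace Pool.Agent.Lib.MP_1a91b9_ntS3

open NumberField IsDedekindDomain WeierstrassCurve WithZero
open Pool.Agent.Lib.MP_1a91b9_ntT Pool.Agent.Lib.MP_1a91b9_ntG
open Pool.Agent.Lib.MP_1a91b9_ntH (wO s3 cp s3_ne prime_s3)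
open Pool.Agent.Lib.MP_1a91b9_ntT.S9 (tam period)
open Pool.Agent.Lib.MP_1a91b9_ntK Pool.Agent.Lib.MP_1a91b9_ntK.C
open scoped Classical

noncomputable section

/-! ### The valuations -/

section val
variable {A : ValuationSubring ℂ}

theorem valj2_eq (hA : Three A) (k : ZMod 3) (e : P3 → ZMod 3) (S : Finset P3) :
    A.valuation ((Lj k 2 e S 1 * 3 / (Om * sq3 ^ (S.card + 1))) ^ 3 * em (Dj k 2 e S)) =
      A.valuation (MP_1a91b9_ntK.nu2 k e S) ^ 3 := by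
  have a1 := Om_ne_zero
  have a2 := kapC_ne
  have a3 := sq3_ne
  have a4 := one_sub_zt_ne
  have a6 : em (DD3 S) ≠ 0 := rt_em_ne (DD3_ne S)
  have a7 : (1 - zt) ^ S.card ≠ 0 := pow_ne_zero _ a4
  have a8 : sq3 ^ S.card ≠ 0 := pow_ne_zero _ a3
  have e9 : em (9 : 𝓞 K) = 9 := Avg2_em_nine
  have e1 : Lj k 2 e S 1 * 3 / (Om * sq3 ^ (S.card + 1)) =
      MP_1a91b9_ntK.nu2 k e S * (kapC * ((1 - zt) / sq3) ^ S.card / (em (DD3 S) * sq3)) := by
    rw [MP_1a91b9_ntK.nu2, N2, rt_em_mul, e9, div_pow, pow_succ]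
    field_simp
    norm_num
  have e2 : em (Dj k 2 e S) = sq3 ^ 2 * em (Dk k e S) := by
    have hv : (2 : ZMod 3).val = 2 := rfl
    have h3 : em s3 = sq3 := em_s3
    rw [Dj, hv, rt_em_mul, em_s3_pow, h3]
  have e3 : (Lj k 2 e S 1 * 3 / (Om * sq3 ^ (S.card + 1))) ^ 3 * em (Dj k 2 e S) =
      MP_1a91b9_ntK.nu2 k e S ^ 3 * (y0 / 2 * (((1 - zt) / sq3) ^ S.card) ^ 3 * em (Dk k e S) /
        em (DD3 S) ^ 3) * (-1) := by
    rw [e1, e2, mul_pow, div_pow, mul_pow kapC, kapC_cube, eta]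
    field_simp
  rw [e3, map_mul, map_mul, map_pow, map_div₀, map_mul, map_mul, map_div₀, map_pow, map_pow,
    map_pow, v_zt_div, v_y0, v_two3 hA, v_Dk hA, v_DD3 hA, Valuation.map_neg, map_one]
  simp

theorem valj1_eq (hA : Three A) (k : ZMod 3) (e : P3 → ZMod 3) (S : Finset P3) :
    A.valuation ((Lj k 1 e S 1 * 3 / (Om * sq3 ^ (S.card + 1))) ^ 3 * em (Dj k 1 e S)) =
      A.valuation (nu1 k e S) ^ 3 := by
  have hN := v_N1 hA
  have a1 := Om_ne_zero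
  have a2 := N1_ne
  have a3 := sq3_ne
  have a4 := one_sub_zt_ne
  have a6 : em (DD3 S) ≠ 0 := rt_em_ne (DD3_ne S)
  have a7 : (1 - zt) ^ S.card ≠ 0 := pow_ne_zero _ a4
  have a8 : sq3 ^ S.card ≠ 0 := pow_ne_zero _ a3
  have e9 : em (9 : 𝓞 K) = 9 := Avg2_em_nine
  have e1 : Lj k 1 e S 1 * 3 / (Om * sq3 ^ (S.card + 1)) =
      nu1 k e S * (N1 / (3 * Om) * ((1 - zt) / sq3) ^ S.card / (em (DD3 S) * sq3)) := by
    rw [nu1, rt_em_mul, e9, div_pow, pow_succ]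
    field_simp
    norm_num
  have e2 : em (Dj k 1 e S) = sq3 * em (Dk k e S) := by
    have hv : (1 : ZMod 3).val = 1 := rfl
    have h3 : em s3 = sq3 := em_s3
    rw [Dj, hv, rt_em_mul, em_s3_pow, h3, pow_one]
  have e3 : (Lj k 1 e S 1 * 3 / (Om * sq3 ^ (S.card + 1))) ^ 3 * em (Dj k 1 e S) =
      nu1 k e S ^ 3 * ((N1 / (3 * Om)) ^ 3 / 3 * (((1 - zt) / sq3) ^ S.card) ^ 3 *
        em (Dk k e S) / em (DD3 S) ^ 3) * (-1) := by
    have h5 : (3 : ℂ) = -sq3 ^ 2 := by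
      rw [sq3_sq]
      norm_num
    obtain ⟨B, hB⟩ : ∃ B, B = N1 / (3 * Om) := ⟨_, rfl⟩
    rw [e1, e2, ← hB, h5]
    field_simp
  have h33 : A.valuation (3 : ℂ) ≠ 0 := by
    rw [Valuation.ne_zero_iff]
    norm_num
  rw [e3, map_mul, map_mul, map_pow, map_div₀, map_mul, map_mul, map_div₀, hN, map_pow, map_pow,
    map_pow, v_zt_div, v_Dk hA, v_DD3 hA, Valuation.map_neg, map_one, div_self h33]
  simp

/-- `j = 0`: the factor `D` -/
theorem valk_cube (hA : Three A) (k : ZMod 3) (e : P3 → ZMod 3) (S : Finset P3) (r : ℕ) :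
    A.valuation ((Lk k e S 1 * 3 / (Om * sq3 ^ r)) ^ 3 * em (Dk k e S)) =
      A.valuation (Lk k e S 1 * 3 / (Om * sq3 ^ r)) ^ 3 := by
  rw [map_mul, map_pow, v_Dk hA, mul_one]

theorem valK_eq (hA : Three A) (k : ZMod 3) (e : P3 → ZMod 3) (S : Finset P3) :
    A.valuation (Lk k e S 1 * 3 / (Om * sq3 ^ S.card)) = A.valuation (nuK k e S) := by
  have a1 := Om_ne_zero
  have a2 := y0_ne
  have a3 := sq3_ne
  have a4 := one_sub_zt_ne
  have a5 : em s3 ≠ 0 := rt_em_ne s3_ne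
  have a6 : em (DD3 S) ≠ 0 := rt_em_ne (DD3_ne S)
  have a7 : (1 - zt) ^ S.card ≠ 0 := pow_ne_zero _ a4
  have a8 : sq3 ^ S.card ≠ 0 := pow_ne_zero _ a3
  have e1 : Lk k e S 1 * 3 / (Om * sq3 ^ S.card) =
      nuK k e S * (y0 * ((1 - zt) / sq3) ^ S.card / em (DD3 S)) := by
    rw [nuK, NN, rt_em_mul, rt_em_mul, rt_em_three, div_pow]
    field_simp
  rw [e1, map_mul, map_div₀, map_mul, map_pow, v_zt_div, v_y0, v_DD3 hA, one_pow,
    one_mul, div_one, mul_one]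

theorem val0_eq (hA : Three A) (e : P3 → ZMod 3) (S : Finset P3) :
    A.valuation (Lk 0 e S 1 * 3 / (Om * sq3 ^ S.card)) = A.valuation (nu0 e S) := by
  have a1 := Om_ne_zero
  have a2 := E13_ne
  have a3 := sq3_ne
  have a4 := one_sub_zt_ne
  have a5 : em s3 ≠ 0 := rt_em_ne s3_ne
  have a6 : em (DD3 S) ≠ 0 := rt_em_ne (DD3_ne S)
  have a7 : (1 - zt) ^ S.card ≠ 0 := pow_ne_zero _ a4
  have a8 : sq3 ^ S.card ≠ 0 := pow_ne_zero _ a3
  have e1 : Lk 0 e S 1 * 3 / (Om * sq3 ^ S.card) =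
      nu0 e S * (E1 (1 / 3) * sq3 / Om * ((1 - zt) / sq3) ^ (S.card + 1) / em (DD3 S)) := by
    rw [nu0, N0, rt_em_mul, rt_em_mul, rt_em_three, div_pow, pow_succ, pow_succ]
    field_simp
  rw [e1, map_mul, map_div₀, map_mul, map_pow, v_zt_div, v_E13, v_DD3 hA, one_pow,
    one_mul, div_one, mul_one]

theorem valh_eq (hA : Three A) (e : P3 → ZMod 3) (S : Finset P3) :
    A.valuation (Lk 0 e S 1 * 3 / (Om * sq3 ^ (S.card + 1))) = A.valuation (xH e S) := by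
  have a1 := Om_ne_zero
  have a2 := E13_ne
  have a3 := sq3_ne
  have a4 := one_sub_zt_ne
  have a5 : em s3 ≠ 0 := rt_em_ne s3_ne
  have a6 : em (DD3 S) ≠ 0 := rt_em_ne (DD3_ne S)
  have a7 : (1 - zt) ^ S.card ≠ 0 := pow_ne_zero _ a4
  have a8 : sq3 ^ S.card ≠ 0 := pow_ne_zero _ a3
  have e1 : Lk 0 e S 1 * 3 / (Om * sq3 ^ (S.card + 1)) =
      xH e S * (E1 (1 / 3) * sq3 / Om * ((1 - zt) / sq3) ^ (S.card + 2) / em (DD3 S)) := by
    rw [xH, muH, N0, rt_em_mul, rt_em_mul, rt_em_three, div_pow, pow_succ sq3,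
      show S.card + 2 = S.card + 1 + 1 by ring, pow_succ, pow_succ, pow_succ, pow_succ]
    field_simp
  rw [e1, map_mul, map_div₀, map_mul, map_pow, v_zt_div, v_E13, v_DD3 hA, one_pow,
    one_mul, div_one, mul_one]

/-- from the residue class to the valuation -/
theorem Rt_dich {x z : ℂ} {y : ZMod 3} {b : Prop} (hx : ∀ A : ValuationSubring ℂ, Three A →
      A.valuation x = A.valuation z ^ 3) (hz : ∀ A : ValuationSubring ℂ, Three A → Rt A z y)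
    (hy : b ↔ y ≠ 0) :
    (b → ∀ A : ValuationSubring ℂ, Three A → A.valuation x = 1) ∧
      (¬ b → ∀ A : ValuationSubring ℂ, Three A → A.valuation x < 1) := by
  constructor
  · intro hb A hA
    rw [hx A hA, (hz A hA).unit hA (hy.1 hb), one_pow]
  · intro hb A hA
    have h0 : y = 0 := by
      by_contra h
      exact hb (hy.2 h)
    have h1 := hz A hA
    rw [h0] at h1
    rw [hx A hA]
    exact pow_lt_one₀ zero_le ((Rt.zero_iff hA).1 h1) (by norm_num)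

end val

/-! ### The formula -/

/-- The formula for `y² + D y = x³`: the numerator of `q` is prime to `3` if and only if `b`. -/
def FormM (D : 𝓞 K) (b : Prop) : Prop :=
  ∃ (g : ℂ → ℂ) (q : ℚ), Differentiable ℂ g ∧
    (∀ s : ℂ, 3 / 2 < s.re → g s = (wd (D : K)).LSeries s) ∧
    g 1 * (√|(discr K : ℝ)| : ℝ) / (period (wd (D : K)) : ℝ) =
      ((q : ℝ) * (((∏ᶠ v : HeightOneSpectrum (𝓞 K), tam (wd (D : K)) v : ℕ) : ℝ) / 9) : ℝ) ∧
    ¬ 3 ∣ q.den ∧ (¬ (3 : ℤ) ∣ q.num ↔ b)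

/-- general form, all classes -/
theorem formM_j {k j : ZMod 3} {e : P3 → ZMod 3} {S : Finset P3} (he : ∀ q ∈ S, e q ≠ 0) {r : ℕ}
    {z : ℂ} {y : ZMod 3} {b : Prop}
    (hx : ∀ A : ValuationSubring ℂ, Three A →
      A.valuation ((Lj k j e S 1 * 3 / (Om * sq3 ^ r)) ^ 3 * em (Dj k j e S)) =
        A.valuation z ^ 3) (hz : ∀ A : ValuationSubring ℂ, Three A → Rt A z y) (hy : b ↔ y ≠ 0)
    {D : 𝓞 K} (hD : D = Dj k j e S ∨ D = -Dj k j e S) (hcube : ∀ p : 𝓞 K, Prime p → ¬ p ^ 3 ∣ D)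
    {t : ℕ} (ht : ¬ 3 ∣ t)
    (hT : (∏ᶠ v : HeightOneSpectrum (𝓞 K), tam (wd (D : K)) v) = 3 ^ r * t) : FormM D b := by
  have hnD : em D = em (Dj k j e S) ∨ em D = -em (Dj k j e S) := by
    rcases hD with rfl | rfl
    · exact Or.inl rfl
    · exact Or.inr (rt_em_neg _)
  have hnn : ‖em D‖ = ‖em (Dj k j e S)‖ := by
    rcases hnD with h | h
    · rw [h]
    · rw [h, norm_neg]
  have hne : D ≠ 0 := pm_ne (Dj_ne k j e S) hD
  obtain ⟨g, hgd, hgs, hg⟩ := serjs k j e S he hD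
  have hx' : ∀ A : ValuationSubring ℂ, Three A →
      A.valuation ((Lj k j e S 1 * 3 / (Om * sq3 ^ r)) ^ 3 * em D) = A.valuation z ^ 3 := by
    intro A hA
    rcases hnD with h | h
    · rw [h]
      exact hx A hA
    · rw [h, mul_neg, Valuation.map_neg]
      exact hx A hA
  obtain ⟨h1, h0⟩ := Rt_dich hx' hz hy
  obtain ⟨q, hq1, hq2, hq3⟩ := formula_mod hne hcube hg h1 h0 ht hT
    (by rw [hnn]; exact crat3j k j e S)
  exact ⟨g, q, hgd, hgs, hq3, hq1, hq2⟩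

/-- general form, `j = 0` -/
theorem formM_k {k : ZMod 3} {e : P3 → ZMod 3} {S : Finset P3} (he : ∀ q ∈ S, e q ≠ 0) {r : ℕ}
    {z : ℂ} {y : ZMod 3} {b : Prop}
    (hx : ∀ A : ValuationSubring ℂ, Three A →
      A.valuation (Lk k e S 1 * 3 / (Om * sq3 ^ r)) = A.valuation z)
    (hz : ∀ A : ValuationSubring ℂ, Three A → Rt A z y) (hy : b ↔ y ≠ 0)
    {D : 𝓞 K} (hD : D = Dk k e S ∨ D = -Dk k e S) (hcube : ∀ p : 𝓞 K, Prime p → ¬ p ^ 3 ∣ D)
    {t : ℕ} (ht : ¬ 3 ∣ t)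
    (hT : (∏ᶠ v : HeightOneSpectrum (𝓞 K), tam (wd (D : K)) v) = 3 ^ r * t) : FormM D b := by
  have hnD : em D = em (Dk k e S) ∨ em D = -em (Dk k e S) := by
    rcases hD with rfl | rfl
    · exact Or.inl rfl
    · exact Or.inr (rt_em_neg _)
  have hnn : ‖em D‖ = ‖em (Dk k e S)‖ := by
    rcases hnD with h | h
    · rw [h]
    · rw [h, norm_neg]
  have hne : D ≠ 0 := pm_ne (Dk_ne k e S) hD
  obtain ⟨g, hgd, hgs, hg⟩ := ser3s k e S he hD
  have hx' : ∀ A : ValuationSubring ℂ, Three A →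
      A.valuation ((Lk k e S 1 * 3 / (Om * sq3 ^ r)) ^ 3 * em D) = A.valuation z ^ 3 := by
    intro A hA
    rcases hnD with h | h
    · rw [h, valk_cube hA, hx A hA]
    · rw [h, mul_neg, Valuation.map_neg, valk_cube hA, hx A hA]
  obtain ⟨h1, h0⟩ := Rt_dich hx' hz hy
  obtain ⟨q, hq1, hq2, hq3⟩ := formula_mod hne hcube hg h1 h0 ht hT
    (by rw [hnn]; exact crat3 k e S)
  exact ⟨g, q, hgd, hgs, hq3, hq1, hq2⟩

private theorem form_iff {x y : ZMod 3} (hy : y ≠ 0) : x ≠ 0 ↔ y * x ≠ 0 :=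
  ⟨fun h => mul_ne_zero hy h, fun h h0 => h (by rw [h0, mul_zero])⟩

private theorem form_iff_neg {x y : ZMod 3} (hy : y ≠ 0) : x ≠ 0 ↔ -(y * x) ≠ 0 := by
  rw [neg_ne_zero]
  exact form_iff hy

/-- `D` prime to `√-3`, `k ≠ 0` -/
theorem form_K {k : ZMod 3} (hk : k ≠ 0) {e : P3 → ZMod 3} {S : Finset P3}
    (he : ∀ q ∈ S, e q ≠ 0) {D : 𝓞 K} (hD : D = Dk k e S ∨ D = -Dk k e S)
    (hR : Ram3 S k.val fun q => (e q).val)
    (hcube : ∀ p : 𝓞 K, Prime p → ¬ p ^ 3 ∣ D) : FormM D ((NK k e S).det ≠ 0) := by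
  obtain ⟨w3, hw3⟩ := exists_w3
  exact formM_k he (fun A hA => valK_eq hA k e S) (fun A hA => nuK_res hA hk S he)
    ((form_iff (Finset.prod_ne_zero_iff.2 he)).trans (form_iff hk)) hD hcube
    (tam_la_easy hR hD hw3) (finprod_Dk he hD hcube hw3)

/-- `D` prime to `√-3`, `k = 0`, not `± 1` modulo `3 √-3` -/
theorem form_0 {e : P3 → ZMod 3} {S : Finset P3} (hS : S.Nonempty)
    (he : ∀ q ∈ S, e q ≠ 0) {D : 𝓞 K} (hD : D = Dk 0 e S ∨ D = -Dk 0 e S)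
    (hR : Ram3 S 0 fun q => (e q).val)
    (hcube : ∀ p : 𝓞 K, Prime p → ¬ p ^ 3 ∣ D) :
    FormM D (CZ (fun i p => d3.s i p * e p) (fun q : P3 => abar q.1) S ≠ 0) := by
  obtain ⟨w3, hw3⟩ := exists_w3
  exact formM_k he (fun A hA => val0_eq hA e S) (fun A hA => nu0_res hA hS he) Iff.rfl hD hcube
    (tam_la_easy (k := 0) hR hD hw3) (finprod_Dk he hD hcube hw3)

/-- `D = ± 1` modulo `3 √-3`, not a cube -/
theorem form_H {e : P3 → ZMod 3} {S : Finset P3} (hS0 : S.Nonempty) (he : ∀ q ∈ S, e q ≠ 0)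
    (hS : ∑ q ∈ S, e q * aP q = 0) {D : 𝓞 K} (hD : D = Dk 0 e S ∨ D = -Dk 0 e S)
    (hcube : ∀ p : 𝓞 K, Prime p → ¬ p ^ 3 ∣ D) : FormM D (kapH d3.s aP bP e S ≠ 0) := by
  have h0 := Dk_hard hS
  have h1 : 3 * s3 ∣ D - 1 ∨ 3 * s3 ∣ D + 1 := by
    rcases hD with rfl | rfl
    · exact Or.inl h0
    · right
      have e1 : -Dk 0 e S + 1 = -(Dk 0 e S - 1) := by ring
      rw [e1, dvd_neg]
      exact h0
  have h3 : ¬ s3 ∣ D := by
    intro hd
    apply prime_s3.not_isUnit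
    apply isUnit_of_dvd_one
    rcases h1 with h2 | h2
    · have h4 := dvd_sub hd ((Dvd.intro_left _ rfl).trans h2)
      rwa [sub_sub_cancel] at h4
    · have h4 := dvd_sub ((Dvd.intro_left _ rfl).trans h2) hd
      rwa [add_sub_cancel_left] at h4
  obtain ⟨w3, hw3⟩ := exists_w3
  refine formM_k he (fun A hA => valh_eq hA e S) (fun A hA => xH_res hA hS0 he hS)
    (form_iff_neg (Finset.prod_ne_zero_iff.2 he)) hD hcube (t := 1) (by norm_num) ?_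
  rw [finprod_Dk he hD hcube hw3, tam_hard' h3 h1 hw3, pow_succ, mul_one]

/-- `√-3 ∣ D` exactly -/
theorem form_J1 {k : ZMod 3} {e : P3 → ZMod 3} {S : Finset P3} (he : ∀ q ∈ S, e q ≠ 0)
    {D : 𝓞 K} (hD : D = Dj k 1 e S ∨ D = -Dj k 1 e S)
    (hcube : ∀ p : 𝓞 K, Prime p → ¬ p ^ 3 ∣ D) : FormM D ((NJ1 k e S).det ≠ 0) :=
  formM_j he (fun A hA => valj1_eq hA k e S) (fun A hA => nu1_res hA k S he)
    (form_iff (Finset.prod_ne_zero_iff.2 he)) hD hcube (t := 1) (by norm_num)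
    (by rw [finprod_Dj (by decide) he hD hcube, mul_one])

/-- `√-3 ^ 2 ∣ D` -/
theorem form_J2 {k : ZMod 3} {e : P3 → ZMod 3} {S : Finset P3} (he : ∀ q ∈ S, e q ≠ 0)
    {D : 𝓞 K} (hD : D = Dj k 2 e S ∨ D = -Dj k 2 e S)
    (hcube : ∀ p : 𝓞 K, Prime p → ¬ p ^ 3 ∣ D) : FormM D ((NJ k 2 e S).det ≠ 0) :=
  formM_j he (fun A hA => valj2_eq hA k e S) (fun A hA => nu2_res hA k S he)
    (form_iff_neg (Finset.prod_ne_zero_iff.2 he)) hD hcube (t := 1) (by norm_num)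
    (by rw [finprod_Dj (by decide) he hD hcube, mul_one])

end

end Pool.Agent.Lib.MP_1a91b9_ntS3
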