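import Pool.Agent.Lib.MP_1a91b9_ntK.Q.PtsH

/-!
# MP_1a91b9_nt (cubic twists): the size of the kernels and the cofactors
-/

set_option autoImplicit false

namespace Pool.Agent.Lib.MP_1a91b9_ntS3

open NumberField IsDedekindDomain Finset Pool.Agent.Lib.MP_1a91b9_ntT Pool.Agent.Lib.MP_1a91b9_ntG
  Pool.Agent.Lib.MP_1a91b9_nt Pool.Agent.Lib.MP_1a91b9_ntK Pool.Agent.Lib.MP_1a91b9_ntK2
  Pool.Agent.Lib.MP_1a91b9_ntK2.D9
open Pool.Agent.Lib.MP_1a91b9_ntH (wO s3 cp Nz)

noncomputable section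

/-- If the kernel consists of the multiples of `e`, it has three elements. -/
theorem kc_of_line {ι : Type} [DecidableEq ι] (D : Dat3 ι) (e : ι → ZMod 3)
    (he : ∀ i, e i * e i = 1) {R : Finset ι} (hR : R.Nonempty)
    (h : ∀ v : R → ZMod 3, (D.N e 0 R).mulVec v = 0 → ∃ c : ZMod 3, ∀ i : R, v i = c * e i) :
    D.kc e 0 R = 3 := by
  have hz : ∀ c : ZMod 3, (D.N e 0 R).mulVec (fun j => c * e j) = 0 := fun c => by
    have h1 := Da.N_zero_mulVec D e he R
    have h2 : (fun j : R => c * e j) = c • fun j : R => e j := rfl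
    rw [h2, Matrix.mulVec_smul, h1, smul_zero]
  let f : ZMod 3 → {v : R → ZMod 3 // (D.N e 0 R).mulVec v = 0} := fun c =>
    ⟨fun j => c * e j, hz c⟩
  have hf : Function.Injective f := by
    intro c c' hc
    obtain ⟨i, hi⟩ := hR
    have h1 : c * e i = c' * e i := congrFun (congrArg Subtype.val hc) ⟨i, hi⟩
    calc c = c * e i * e i := by rw [mul_assoc, he, mul_one]
      _ = c' := by rw [h1, mul_assoc, he, mul_one]
  have hs : Function.Surjective f := by
    rintro ⟨v, hv⟩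
    obtain ⟨c, hc⟩ := h v hv
    exact ⟨c, Subtype.ext (funext fun i => (hc i).symm)⟩
  have h1 := Fintype.card_of_bijective ⟨hf, hs⟩
  rw [ZMod.card] at h1
  exact h1.symm

/-- The same for the bordered Laplacian. -/
theorem kB_of_line {ι : Type} [DecidableEq ι] (D : Dat3b ι) (e : ι → ZMod 3)
    (he : ∀ i, e i * e i = 1) (κ : ZMod 3) {R : Finset ι} (hR : R.Nonempty) (hA : D.cA e R = 0)
    (h : ∀ v : R ⊕ Unit → ZMod 3, (D.NB e 0 0 κ R).mulVec v = 0 →
      ∃ c : ZMod 3, (∀ i : R, v (Sum.inl i) = c * e i) ∧ v (Sum.inr ()) = 0) :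
    D.kB e 0 0 κ R = 3 := by
  let f : ZMod 3 → {v : R ⊕ Unit → ZMod 3 // (D.NB e 0 0 κ R).mulVec v = 0} := fun c =>
    ⟨_, D.NB_mulVec_e e he κ R hA c⟩
  have hf : Function.Injective f := by
    intro c c' hc
    obtain ⟨i, hi⟩ := hR
    have h1 : c * e i = c' * e i := congrFun (congrArg Subtype.val hc) (Sum.inl ⟨i, hi⟩)
    calc c = c * e i * e i := by rw [mul_assoc, he, mul_one]
      _ = c' := by rw [h1, mul_assoc, he, mul_one]
  have hs : Function.Surjective f := by
    rintro ⟨v, hv⟩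
    obtain ⟨c, hc, hc0⟩ := h v hv
    refine ⟨c, Subtype.ext (funext fun x => ?_)⟩
    rcases x with i | ⟨⟩
    · exact (hc i).symm
    · exact hc0.symm
  have h1 := Fintype.card_of_bijective ⟨hf, hs⟩
  rw [ZMod.card] at h1
  exact h1.symm

variable {e : P3 → ZMod 3} {S : Finset P3}

/-- the kernel of the Laplacian, from the cofactors -/
theorem line_of_cz (he : ∀ q ∈ S, e q ≠ 0) {a : P3 → ZMod 3}
    (h : CZ (fun i p => d3.s i p * e p) a S ≠ 0) (v : S → ZMod 3)
    (hv : (NK 0 e S).mulVec v = 0) : ∃ c : ZMod 3, ∀ i : S, v i = c * e i := by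
  have hsq : ∀ q ∈ S, e q * e q = 1 := fun q hq => z3_sq _ (he q hq)
  rw [CZ] at h
  obtain ⟨r, -, hr⟩ := exists_ne_zero_of_sum_ne_zero h
  have hr' := right_ne_zero_of_mul hr
  have h1 := NM_eq_NE d3.s 0 e S hsq
  have h2 : (NM (fun i p => d3.s i p * e p) 0 S).mulVec (fun i : S => e i * v i) = 0 := by
    rw [h1, ← Matrix.mulVec_mulVec]
    have h3 : (Matrix.diagonal fun i : S => e i).mulVec (fun i => e i * v i) = v := by
      ext i
      rw [Matrix.mulVec_diagonal]
      linear_combination v i * hsq i i.2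
    rw [h3, ← NK_zero]
    exact hv
  refine ⟨e r * v r, fun q => ?_⟩
  have h4 := C.ker_adj hr' (C.NM_one _ S) h2 q
  linear_combination e q * h4 - v q * hsq q q.2

/-- **not hard, `k = 0`**: the kernel has three elements if and only if the cofactor is not zero -/
theorem kc_iff (he : ∀ q, e q ≠ 0) (hA : ∑ q ∈ S, e q * d3.a q ≠ 0) :
    d3.kc e 0 S = 3 ↔ CZ (fun i p => d3.s i p * e p) (fun q : P3 => abar q.1) S ≠ 0 := by
  constructor
  · intro h
    refine CZ_ne_of_ker d3.s d3_sym (fun q : P3 => abar q.1) e (fun q _ => he q) ?_ ?_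
    · intro h1
      apply hA
      have h2 : ∑ q ∈ S, e q * abar q.1 = -∑ q ∈ S, e q * d3.a q := by
        rw [← sum_neg_distrib]
        refine sum_congr rfl fun q _ => ?_
        rw [abar_d3]
        ring
      rw [h1] at h2
      exact neg_eq_zero.1 h2.symm
    · intro v hv
      rw [← NK_zero, NK_eq_N] at hv
      exact d3.ker_of_kc e (fun i => z3_sq _ (he i)) S h v hv
  · intro h
    have hS : S.Nonempty := by
      rw [nonempty_iff_ne_empty]
      rintro rfl
      exact hA sum_empty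
    refine kc_of_line d3 e (fun i => z3_sq _ (he i)) hS fun v hv => ?_
    rw [← NK_eq_N] at hv
    exact line_of_cz (fun q _ => he q) h v hv

theorem sum_aP' : ∑ q ∈ S, e q * aP q = -∑ q ∈ S, e q * d3.a q := by
  rw [← sum_neg_distrib]
  refine sum_congr rfl fun q _ => ?_
  rw [aP_d3]
  ring

/-- the kernel of the bordered Laplacian, from the cofactor -/
theorem line_of_kapH (hS : S.Nonempty) (he : ∀ q ∈ S, e q ≠ 0) (hA : ∑ q ∈ S, e q * aP q = 0)
    (h : kapH d3.s aP bP e S ≠ 0) (v : S ⊕ Unit → ZMod 3)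
    (hv : (NH d3.s aP bP e S).mulVec v = 0) :
    ∃ c : ZMod 3, (∀ i : S, v (Sum.inl i) = c * e i) ∧ v (Sum.inr ()) = 0 := by
  obtain ⟨r, hr⟩ := id hS
  have hsq : e r * e r = 1 := z3_sq _ (he r hr)
  have h1 := kapH_adj d3.s d3_sym aP bP e hS he hA (Sum.inl ⟨r, hr⟩) (Sum.inl ⟨r, hr⟩)
  have h2 : (NH d3.s aP bP e S).adjugate (Sum.inl ⟨r, hr⟩) (Sum.inl ⟨r, hr⟩) ≠ 0 := by
    rw [h1]
    refine mul_ne_zero h ?_
    change e r * e r ≠ 0
    rw [hsq]
    exact one_ne_zero
  have h3 := fun x => C.ker_adj h2 (NH_mulVec d3.s aP bP e he hA) hv x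
  refine ⟨e r * v (Sum.inl ⟨r, hr⟩), fun i => ?_, ?_⟩
  · have h4 : e r * v (Sum.inl i) = v (Sum.inl ⟨r, hr⟩) * e i := h3 (Sum.inl i)
    linear_combination e r * h4 - v (Sum.inl i) * hsq
  · have h4 : e r * v (Sum.inr ()) = v (Sum.inl ⟨r, hr⟩) * 0 := h3 (Sum.inr ())
    linear_combination e r * h4 - v (Sum.inr ()) * hsq

/-- **hard class**: the kernel has three elements if and only if the cofactor is not zero -/
theorem kB_iff (he : ∀ q, e q ≠ 0) (hS : S.Nonempty) (hA : ∑ q ∈ S, e q * d3.a q = 0) :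
    d3b.kB e 0 0 (∑ q ∈ S, e q * d3b.b q) S = 3 ↔ kapH d3.s aP bP e S ≠ 0 := by
  have hA' : ∑ q ∈ S, e q * aP q = 0 := by rw [sum_aP', hA, neg_zero]
  constructor
  · intro h
    exact kapH_ne_of_ker d3.s d3_sym aP bP e hS (fun q _ => he q) hA' (ker_NH he hS hA h)
  · intro h
    refine kB_of_line d3b e (fun i => z3_sq _ (he i)) _ hS hA fun v hv => ?_
    have h0 : (fun q : P3 => (0 : ZMod 3) * d3b.a q + 0 * d3b.b q) = 0 := by
      funext q
      rw [zero_mul, zero_mul, add_zero]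
      rfl
    rw [d3b.NB_eq, h0, Matrix.fromBlocks_mulVec] at hv
    have e1 : ∀ i : S, (NE d3.s 0 e S).mulVec (v ∘ Sum.inl) i + d3.a i * v (Sum.inr ()) = 0 := by
      intro i
      have h2 : (NE d3.s 0 e S).mulVec (v ∘ Sum.inl) i +
          (∑ x : Unit, d3.a i * v (Sum.inr x)) = 0 := congrFun hv (Sum.inl i)
      rw [Fintype.sum_unique (fun x : Unit => d3.a i * v (Sum.inr x))] at h2
      exact h2
    have e2 : ∑ i : S, d3.a i * v (Sum.inl i) + (∑ q ∈ S, e q * d3b.b q) * v (Sum.inr ()) = 0 := by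
      have h2 : (∑ i : S, d3.a i * v (Sum.inl i)) +
          (∑ x : Unit, (∑ q ∈ S, e q * d3b.b q) * v (Sum.inr x)) = 0 := congrFun hv (Sum.inr ())
      rw [Fintype.sum_unique (fun x : Unit => (∑ q ∈ S, e q * d3b.b q) * v (Sum.inr x))] at h2
      exact h2
    have key : (NH d3.s aP bP e S).mulVec
        (Sum.elim (fun i => v (Sum.inl i)) fun _ => -v (Sum.inr ())) = 0 := by
      rw [NH, NB, Matrix.fromBlocks_mulVec]
      funext x
      rcases x with i | x
      · have h3 : (NE d3.s 0 e S).mulVec (v ∘ Sum.inl) i +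
            (∑ _x : Unit, aP i * -v (Sum.inr ())) = 0 := by
          rw [Fintype.sum_unique (fun _ : Unit => aP i * -v (Sum.inr ())), aP_d3]
          linear_combination e1 i
        exact h3
      · have h3 : ∑ i : S, aP i * v (Sum.inl i) = -∑ i : S, d3.a i * v (Sum.inl i) := by
          rw [← sum_neg_distrib]
          exact sum_congr rfl fun i _ => by rw [aP_d3]; ring
        have h4 : (∑ i : S, aP i * v (Sum.inl i)) +
            (∑ _x : Unit, (∑ q ∈ S, e q * bP q) * -v (Sum.inr ())) = 0 := by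
          rw [Fintype.sum_unique (fun _ : Unit => (∑ q ∈ S, e q * bP q) * -v (Sum.inr ())), h3]
          simp only [bP_d3]
          linear_combination -e2
        exact h4
    obtain ⟨c, h1, h2⟩ := line_of_kapH hS (fun q _ => he q) hA' h _ key
    exact ⟨c, h1, neg_eq_zero.1 h2⟩

end

end Pool.Agent.Lib.MP_1a91b9_ntS3
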