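import Pool.Agent.Lib.MP_1a91b9_ntH.A.Prim
import Pool.Agent.Lib.MP_1a91b9_ntK.C.ShaWj

/-!
# MP_1a91b9_nt (cubic twists): the 3-primary part of the group of points of `y² + D y = x³`

It has three elements if `D` is not a cube.
-/

set_option autoImplicit false

namespace Pool.Agent.Lib.MP_1a91b9_ntS3

open NumberField IsDedekindDomain WeierstrassCurve Pool.Agent.Lib.MP_1a91b9_ntT
open Pool.Agent.Lib.MP_1a91b9_nt (exists_point_equiv)
open Pool.Agent.Lib.MP_1a91b9_ntH (wO s3 Prim_unit_two omU omU_val red red_eq red_eq_zero red_w F4)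
open Pool.Agent.Lib.MP_1a91b9_ntK Pool.Agent.Lib.MP_1a91b9_ntK.C
open scoped Classical

noncomputable section

section
variable {F : Type*} [Field F] [CharZero F] {W : Affine F} {z k : F}

/-- `1 - ω` is injective on its range if `-4 k²` is not a cube. -/
theorem mu_inj (h : IsK W z k) (hc : ∀ c : F, c ^ 3 ≠ -(4 * k ^ 2)) (P : W.Point)
    (hP : mu h (mu h P) = 0) : mu h P = 0 := by
  by_contra hne
  rcases P with _ | ⟨x, y, hn⟩
  · exact hne (map_zero (mu h))
  · have hx : x ≠ 0 := by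
      rintro rfl
      apply hne
      rw [mu_apply, sub_eq_zero]
      exact ((omP_fixed h hn).2 rfl).symm
    obtain ⟨X, Y, hn', h1, h2⟩ := mu_some3 h hn hx
    have hX : X = 0 := by
      rw [h1, mu_apply, sub_eq_zero] at hP
      exact (omP_fixed h hn').1 hP.symm
    rw [hX, mul_zero] at h2
    exact hc x (by linear_combination h2)

theorem three_smul_ker (h : IsK W z k) {P : W.Point} (hP : mu h P = 0) : 3 • P = 0 := by
  have h1 := mu_mu h P
  rw [hP, map_zero] at h1
  have h2 : omP h P = P := by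
    rw [mu_apply, sub_eq_zero] at hP
    exact hP.symm
  rw [h2] at h1
  exact neg_eq_zero.1 h1.symm

theorem mem_prim_iff (h : IsK W z k) (hc : ∀ c : F, c ^ 3 ≠ -(4 * k ^ 2)) (P : W.Point) :
    P ∈ AddCommGroup.primaryComponent W.Point 3 ↔ mu h P = 0 := by
  constructor
  · rintro ⟨j, hj⟩
    induction j generalizing P with
    | zero =>
      rw [pow_zero, one_smul] at hj
      rw [hj, map_zero]
    | succ j ih =>
      have h1 : 3 ^ j • (3 • P) = 0 := by rw [smul_smul, ← pow_succ, hj]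
      have h2 := ih _ h1
      rw [map_nsmul] at h2
      apply mu_inj h hc
      apply mu_inj h hc
      rw [mu_mu, ← map_nsmul, h2, map_zero, neg_zero]
  · intro hP
    exact ⟨1, by rw [pow_one]; exact three_smul_ker h hP⟩

theorem card_mu_ker (h : IsK W z k) : Nat.card {P : W.Point // mu h P = 0} = 3 := by
  have hs : {P : W.Point | mu h P = 0} = {0, tq h, -tq h} := by
    ext P
    simp only [Set.mem_ofPred_eq, Set.mem_insert_iff, Set.mem_singleton_iff]
    constructor
    · exact mu_ker_all h P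
    · rintro (h1 | h1 | h1)
      · rw [h1, map_zero]
      · rw [h1, mu_tq]
      · rw [h1, map_neg, mu_tq, neg_zero]
  change Nat.card ({P : W.Point | mu h P = 0} : Set W.Point) = 3
  rw [hs, Nat.card_coe_set_eq, Set.ncard_insert_of_notMem, Set.ncard_pair (tq_ne_neg h).symm]
  simp only [Set.mem_insert_iff, Set.mem_singleton_iff, not_or]
  exact ⟨(tq_ne h).symm, (neg_ne_zero.2 (tq_ne h)).symm⟩

theorem card_prim_ck (h : IsK W z k) (hc : ∀ c : F, c ^ 3 ≠ -(4 * k ^ 2)) :
    Nat.card (AddCommGroup.primaryComponent W.Point 3) = 3 := by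
  exact (Nat.card_congr (Equiv.subtypeEquivRight fun P => mem_prim_iff h hc P)).trans (card_mu_ker h)

end

theorem card_prim_equiv {A B : Type*} [AddCommGroup A] [AddCommGroup B] (e : A ≃+ B) (p : ℕ)
    [Fact p.Prime] : Nat.card (AddCommGroup.primaryComponent A p) =
      Nat.card (AddCommGroup.primaryComponent B p) := by
  refine Nat.card_congr (e.toEquiv.subtypeEquiv fun a => ?_)
  constructor
  · rintro ⟨n, hn⟩
    exact ⟨n, by
      change p ^ n • e a = 0
      rw [← map_nsmul, hn, map_zero]⟩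
  · rintro ⟨n, hn⟩
    refine ⟨n, e.injective ?_⟩
    rw [map_nsmul, map_zero]
    exact hn

/-! ### The cubes -/

theorem unit_cube {u : 𝓞 K} (hu : IsUnit u) : u ^ 3 = 1 ∨ u ^ 3 = -1 := by
  have h2 : red u ≠ 0 := by
    intro h
    have h1 : (2 : 𝓞 K) ∣ u := red_eq_zero.1 h
    exact Pool.Agent.Lib.MP_1a91b9_ntH.C.two_prime.not_isUnit (isUnit_of_dvd_unit h1 hu)
  obtain ⟨u, rfl⟩ := hu
  have hw : wO ^ 3 = 1 := by
    have := Pool.Agent.Lib.MP_1a91b9_ntH.wO_quad
    linear_combination (wO - 1) * this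
  have h3 : ∀ y : F4, y ≠ 0 → y = 1 ∨ F4.w * y = 1 ∨ F4.w ^ 2 * y = 1 := by decide
  have key : ∀ i : ℕ, red (wO ^ i * (u : 𝓞 K)) = 1 → (u : 𝓞 K) ^ 3 = 1 ∨ (u : 𝓞 K) ^ 3 = -1 := by
    intro i hi
    have e : ((omU ^ i * u : (𝓞 K)ˣ) : 𝓞 K) = wO ^ i * (u : 𝓞 K) := by
      rw [Units.val_mul, Units.val_pow_eq_pow_val, omU_val]
    have h4 : (2 : 𝓞 K) ∣ ((omU ^ i * u : (𝓞 K)ˣ) : 𝓞 K) - 1 := by
      rw [← red_eq, e, hi, map_one]
    have h5 : (wO ^ i * (u : 𝓞 K)) ^ 3 = (u : 𝓞 K) ^ 3 := by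
      rw [mul_pow, ← pow_mul, mul_comm i 3, pow_mul, hw, one_pow, one_mul]
    rw [← h5, ← e]
    rcases Prim_unit_two h4 with h6 | h6
    · left
      rw [h6, Units.val_one, one_pow]
    · right
      rw [h6, Units.val_neg, Units.val_one]
      norm_num
  rcases h3 _ h2 with h | h | h
  · exact key 0 (by rw [pow_zero, one_mul]; exact h)
  · exact key 1 (by rw [pow_one, map_mul, red_w]; exact h)
  · exact key 2 (by rw [map_mul, map_pow, red_w]; exact h)

/-- A cube-free element which is not `± 1` is not a cube. -/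
theorem not_cube {D : 𝓞 K} (hD : ∀ p : 𝓞 K, Prime p → ¬ p ^ 3 ∣ D) (h1 : D ≠ 1) (h2 : D ≠ -1)
    (a : K) : a ^ 3 ≠ (D : K) := by
  intro ha
  have hint : _root_.IsIntegral ℤ a := by
    have h : _root_.IsIntegral ℤ (a ^ 3) := by
      rw [ha]
      exact D.2
    exact h.of_pow (by norm_num)
  obtain ⟨b, hb⟩ : ∃ b : 𝓞 K, (b : K) = a := ⟨⟨a, hint⟩, rfl⟩
  have hb3 : b ^ 3 = D := by
    apply RingOfIntegers.ext
    have h : ((b ^ 3 : 𝓞 K) : K) = (b : K) ^ 3 := by
      push_cast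
      rfl
    rw [h, hb, ha]
  have hu : IsUnit b := by
    by_contra hu
    by_cases hb0 : b = 0
    · have hp := Pool.Agent.Lib.MP_1a91b9_ntH.prime_s3
      apply hD s3 hp
      rw [← hb3, hb0]
      norm_num
    · obtain ⟨p, hp, hpb⟩ := WfDvdMonoid.exists_irreducible_factor hu hb0
      exact hD p (UniqueFactorizationMonoid.irreducible_iff_prime.1 hp) (hb3 ▸ pow_dvd_pow_of_dvd hpb 3)
  rcases unit_cube hu with h | h
  · exact h1 (hb3.symm.trans h)
  · exact h2 (hb3.symm.trans h)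

/-- **The 3-primary part of the group of points.** -/
theorem card_prim_wd {D : 𝓞 K} (hD : ∀ p : 𝓞 K, Prime p → ¬ p ^ 3 ∣ D) (h1 : D ≠ 1)
    (h2 : D ≠ -1) :
    Nat.card (AddCommGroup.primaryComponent (wd (D : K)).toAffine.Point 3) = 3 := by
  have hD0 : (D : K) ≠ 0 := by
    intro h
    have h3 : D = 0 := RingOfIntegers.ext h
    apply hD s3 Pool.Agent.Lib.MP_1a91b9_ntH.prime_s3
    rw [h3]
    exact dvd_zero _
  obtain ⟨k, hk⟩ : ∃ k : K, 2 * k = (D : K) := ⟨(D : K) / 2, by ring⟩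
  have hk0 : k ≠ 0 := by
    rintro rfl
    rw [mul_zero] at hk
    exact hD0 hk.symm
  have hI : IsK (ck k).toAffine om k := ⟨rfl, Pool.Agent.Lib.MP_1a91b9_ntH.om_quad, hk0⟩
  have e : wd (D : K) = ckC k • ck k := (ckC_smul hk).symm
  obtain ⟨f, -⟩ := exists_point_equiv (ck k) (ckC k)
  rw [e, card_prim_equiv f 3]
  refine card_prim_ck hI fun c hc => ?_
  have hc0 : c ≠ 0 := by
    rintro rfl
    have h3 : 4 * k ^ 2 = 0 := by linear_combination hc
    exact hk0 (pow_eq_zero_iff two_ne_zero |>.1 ((mul_eq_zero.1 h3).resolve_left (by norm_num)))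
  refine not_cube hD h1 h2 (-(D : K) / c) ?_
  have h4 : c ^ 3 = -(D : K) ^ 2 := by
    rw [← hk]
    linear_combination hc
  rw [div_pow, h4, neg_pow, div_eq_iff (neg_ne_zero.2 (pow_ne_zero 2 hD0))]
  ring

end

end Pool.Agent.Lib.MP_1a91b9_ntS3
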