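import Pool.Agent.Lib.MP_1a91b9_ntS3.L.Form

/-!
# MP_1a91b9_nt (cubic twists): the formula modulo `√-3` for `D = ± 1`
-/

set_option autoImplicit false

namespace Pool.Agent.Lib.MP_1a91b9_ntS3

open NumberField IsDedekindDomain WeierstrassCurve WithZero
open Pool.Agent.Lib.MP_1a91b9_ntT Pool.Agent.Lib.MP_1a91b9_ntG
open Pool.Agent.Lib.MP_1a91b9_ntH (wO s3 cp s3_ne prime_s3)
open Pool.Agent.Lib.MP_1a91b9_ntT.S9 (tam period)
open Pool.Agent.Lib.MP_1a91b9_ntK Pool.Agent.Lib.MP_1a91b9_ntK.C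
open scoped Classical

noncomputable section

theorem Dk_empty (e : P3 → ZMod 3) : Dk 0 e ∅ = 1 := by
  rw [Dk, Finset.prod_empty, ZMod.val_zero, pow_zero, one_mul]

theorem one_cube {D : 𝓞 K} (hD : D = 1 ∨ D = -1) : ∀ p : 𝓞 K, Prime p → ¬ p ^ 3 ∣ D := by
  intro p hp h
  have h1 : p ∣ D := (dvd_pow_self p (by norm_num)).trans h
  apply hp.not_isUnit
  rcases hD with rfl | rfl
  · exact isUnit_of_dvd_one h1
  · exact isUnit_of_dvd_one ((dvd_neg).1 h1)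

theorem tam_one {D : 𝓞 K} (hD : D = 1 ∨ D = -1) :
    (∏ᶠ v : HeightOneSpectrum (𝓞 K), tam (wd (D : K)) v) = 3 := by
  obtain ⟨w3, hw3⟩ := exists_w3
  have hD' : D = Dk 0 (fun _ => 1) ∅ ∨ D = -Dk 0 (fun _ => 1) ∅ := by
    rw [Dk_empty]
    exact hD
  have h1 : 3 * s3 ∣ D - 1 ∨ 3 * s3 ∣ D + 1 := by
    rcases hD with rfl | rfl
    · left
      rw [sub_self]
      exact dvd_zero _
    · right
      rw [neg_add_cancel]
      exact dvd_zero _
  have h3 : ¬ s3 ∣ D := by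
    intro h
    apply prime_s3.not_isUnit
    rcases hD with rfl | rfl
    · exact isUnit_of_dvd_one h
    · exact isUnit_of_dvd_one ((dvd_neg).1 h)
  rw [finprod_Dk (fun q hq => absurd hq (Finset.notMem_empty q)) hD' (one_cube hD) hw3,
    Finset.card_empty, pow_zero, one_mul, tam_hard' h3 h1 hw3]

/-- **The formula modulo `√-3`, `D = ± 1`.** -/
theorem form_one {D : 𝓞 K} (hD : D = 1 ∨ D = -1) :
    ∃ (g : ℂ → ℂ) (q : ℚ), Differentiable ℂ g ∧
      (∀ s : ℂ, 3 / 2 < s.re → g s = (wd (D : K)).LSeries s) ∧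
      g 1 * (√|(discr K : ℝ)| : ℝ) / (period (wd (D : K)) : ℝ) =
        ((q : ℝ) * (((∏ᶠ v : HeightOneSpectrum (𝓞 K), tam (wd (D : K)) v : ℕ) : ℝ) / 81) : ℝ) ∧
      ¬ 3 ∣ q.den ∧ ¬ (3 : ℤ) ∣ q.num := by
  obtain ⟨e, he⟩ : ∃ e : P3 → ZMod 3, e = fun _ => 1 := ⟨_, rfl⟩
  have hD' : D = Dk 0 e ∅ ∨ D = -Dk 0 e ∅ := by
    rw [Dk_empty]
    exact hD
  have hne : D ≠ 0 := pm_ne (Dk_ne 0 e ∅) hD'
  have hnn : ‖em D‖ = ‖em (Dk 0 e ∅)‖ := by
    rcases hD' with h | h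
    · rw [h]
    · rw [h, rt_em_neg, norm_neg]
  obtain ⟨g, hgd, hgs, hg⟩ := ser3s 0 e ∅ (fun q hq => absurd hq (Finset.notMem_empty q)) hD'
  obtain ⟨L, hL⟩ : ∃ L, L = Lk 0 e ∅ 1 := ⟨_, rfl⟩
  rw [← hL] at hg
  have hval : ∀ A : ValuationSubring ℂ, Three A →
      A.valuation ((3 * L * 3 / (Om * sq3 ^ 1)) ^ 3 * em D) = 1 := by
    intro A hA
    have h1 := val0_eq hA e ∅
    rw [Finset.card_empty, pow_zero, mul_one, nu0_empty, ← hL, map_inv₀, v_zt_eq] at h1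
    have h2 : 3 * L * 3 / (Om * sq3 ^ 1) = L * 3 / Om * (-sq3) := by
      have h3 : (3 : ℂ) = -(sq3 * sq3) := by
        rw [← pow_two, sq3_sq]
        norm_num
      have a1 := Om_ne_zero
      have a3 := sq3_ne
      rw [pow_one]
      field_simp
      rw [h3]
      ring
    have h4 : A.valuation sq3 ≠ 0 := by
      rw [Valuation.ne_zero_iff]
      exact sq3_ne
    have h5 : A.valuation (3 * L * 3 / (Om * sq3 ^ 1)) = 1 := by
      rw [h2, map_mul, h1, Valuation.map_neg, inv_mul_cancel₀ h4]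
    have h6 : A.valuation (em D) = 1 := by
      rcases hD with rfl | rfl
      · rw [rt_em_one, map_one]
      · rw [rt_em_neg, rt_em_one, Valuation.map_neg, map_one]
    rw [map_mul, map_pow, h5, h6, one_pow, one_mul]
  obtain ⟨q, h1, h2, h3⟩ := formula_mod hne (one_cube hD) (L := 3 * L) (g1 := 9 * g 1) (r := 1)
    (b := True) (by rw [hg, map_mul, map_ofNat]; ring) (fun _ => hval) (fun h => absurd trivial h)
    (t := 1) (by norm_num) (tam_one hD) (by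
      obtain ⟨q, hq⟩ := crat3 0 e ∅
      refine ⟨9 * q, ?_⟩
      rw [hnn, norm_mul, mul_pow, hL]
      have h9 : ‖(3 : ℂ)‖ ^ 2 = 9 := by norm_num
      rw [h9]
      push_cast
      linear_combination 9 * hq)
  refine ⟨g, q, hgd, hgs, ?_, h1, h2.2 trivial⟩
  have h4 : g 1 * (√|(discr K : ℝ)| : ℝ) / (period (wd (D : K)) : ℝ) =
      (9 * g 1 * (√|(discr K : ℝ)| : ℝ) / (period (wd (D : K)) : ℝ)) / 9 := by ring
  rw [h4, h3]
  push_cast
  ring

end

end Pool.Agent.Lib.MP_1a91b9_ntS3
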